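import Pool.Agent.H82.AS.Targets

/-!
`T_LTR` of the board as_modules (`MP_7ecdd4_nt`): the number of triples of integers with sum zero,
given divisors and bounded product.
-/

set_option autoImplicit false

open Pool.Agent.H38.RB Pool.Agent.H38.PS Pool.Agent.H82.AS

namespace Pool.Agent.H56.AS

/-- the triple with last entry negative -/
def ph2 (z : ℕ × ℕ) : Fin 3 → ℤ := ![(z.1 : ℤ), (z.2 : ℤ), -((z.1 : ℤ) + z.2)]

/-- the triple with middle entry negative -/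
def ph1 (z : ℕ × ℕ) : Fin 3 → ℤ := ![(z.1 : ℤ), -((z.1 : ℤ) + z.2), (z.2 : ℤ)]

/-- the triple with first entry negative -/
def ph0 (z : ℕ × ℕ) : Fin 3 → ℤ := ![-((z.1 : ℤ) + z.2), (z.1 : ℤ), (z.2 : ℤ)]

theorem inj2 : Function.Injective ph2 := by
  rintro ⟨a, b⟩ ⟨a', b'⟩ h
  have h0 := congrFun h 0
  have h1 := congrFun h 1
  simp [ph2] at h0 h1
  rw [h0, h1]

theorem inj1 : Function.Injective ph1 := by
  rintro ⟨a, b⟩ ⟨a', b'⟩ h
  have h0 := congrFun h 0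
  have h1 := congrFun h 2
  simp [ph1] at h0 h1
  rw [h0, h1]

theorem inj0 : Function.Injective ph0 := by
  rintro ⟨a, b⟩ ⟨a', b'⟩ h
  have h0 := congrFun h 1
  have h1 := congrFun h 2
  simp [ph0] at h0 h1
  rw [h0, h1]

theorem pr_aux (a b : ℕ) : ((a : ℤ) * b * -((a : ℤ) + b)).natAbs = a * b * (a + b) := by
  rw [mul_neg, Int.natAbs_neg]
  have : (a : ℤ) * b * ((a : ℤ) + b) = ((a * b * (a + b) : ℕ) : ℤ) := by push_cast; ring
  rw [this, Int.natAbs_natCast]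

theorem dvd_aux (a b c : ℕ) (h : (c : ℤ) ∣ -((a : ℤ) + b)) : c ∣ a + b := by
  rw [dvd_neg] at h
  exact_mod_cast h

theorem img2 (d : Fin 3 → ℕ) (T : ℝ) :
    {y | y ∈ L3 d T ∧ 0 < y 0 ∧ 0 < y 1} = ph2 '' PQ ![d 0, d 1, d 2] T := by
  ext y
  constructor
  · rintro ⟨⟨hne, hs, hd, hT⟩, h0, h1⟩
    obtain ⟨a, ha⟩ := Int.eq_ofNat_of_zero_le h0.le
    obtain ⟨b, hb⟩ := Int.eq_ofNat_of_zero_le h1.le
    have h2 : y 2 = -((a : ℤ) + b) := by rw [ha, hb] at hs; linarith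
    refine ⟨(a, b), ⟨?_, ?_, ?_, ?_, ?_, ?_⟩, ?_⟩
    · show 1 ≤ a
      rw [ha] at h0; exact_mod_cast h0
    · show 1 ≤ b
      rw [hb] at h1; exact_mod_cast h1
    · show d 0 ∣ a
      have := hd 0; rw [ha] at this; exact_mod_cast this
    · show d 1 ∣ b
      have := hd 1; rw [hb] at this; exact_mod_cast this
    · show d 2 ∣ a + b
      have := hd 2; rw [h2] at this; exact dvd_aux _ _ _ this
    · show ((a * b * (a + b) : ℕ) : ℝ) ≤ T
      rw [pr, ha, hb, h2, pr_aux] at hT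
      exact hT
    · funext i
      fin_cases i
      · exact ha.symm
      · exact hb.symm
      · exact h2.symm
  · rintro ⟨⟨a, b⟩, ⟨h1, h2, h3, h4, h5, h6⟩, rfl⟩
    change 1 ≤ a at h1
    change 1 ≤ b at h2
    change d 0 ∣ a at h3
    change d 1 ∣ b at h4
    change d 2 ∣ a + b at h5
    change ((a * b * (a + b) : ℕ) : ℝ) ≤ T at h6
    refine ⟨⟨?_, ?_, ?_, ?_⟩, ?_, ?_⟩
    · intro i
      fin_cases i
      · show (a : ℤ) ≠ 0
        omega
      · show (b : ℤ) ≠ 0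
        omega
      · show -((a : ℤ) + b) ≠ 0
        omega
    · show (a : ℤ) + b + -((a : ℤ) + b) = 0
      ring
    · intro i
      fin_cases i
      · show (d 0 : ℤ) ∣ a
        exact_mod_cast h3
      · show (d 1 : ℤ) ∣ b
        exact_mod_cast h4
      · show (d 2 : ℤ) ∣ -((a : ℤ) + b)
        rw [dvd_neg]; exact_mod_cast h5
    · show ((((a : ℤ) * b * -((a : ℤ) + b)).natAbs : ℕ) : ℝ) ≤ T
      rw [pr_aux]; exact h6
    · show (0 : ℤ) < a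
      omega
    · show (0 : ℤ) < b
      omega

theorem img1 (d : Fin 3 → ℕ) (T : ℝ) :
    {y | y ∈ L3 d T ∧ 0 < y 0 ∧ 0 < y 2} = ph1 '' PQ ![d 0, d 2, d 1] T := by
  ext y
  constructor
  · rintro ⟨⟨hne, hs, hd, hT⟩, h0, h1⟩
    obtain ⟨a, ha⟩ := Int.eq_ofNat_of_zero_le h0.le
    obtain ⟨b, hb⟩ := Int.eq_ofNat_of_zero_le h1.le
    have h2 : y 1 = -((a : ℤ) + b) := by rw [ha, hb] at hs; linarith
    refine ⟨(a, b), ⟨?_, ?_, ?_, ?_, ?_, ?_⟩, ?_⟩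
    · show 1 ≤ a
      rw [ha] at h0; exact_mod_cast h0
    · show 1 ≤ b
      rw [hb] at h1; exact_mod_cast h1
    · show d 0 ∣ a
      have := hd 0; rw [ha] at this; exact_mod_cast this
    · show d 2 ∣ b
      have := hd 2; rw [hb] at this; exact_mod_cast this
    · show d 1 ∣ a + b
      have := hd 1; rw [h2] at this; exact dvd_aux _ _ _ this
    · show ((a * b * (a + b) : ℕ) : ℝ) ≤ T
      rw [pr, ha, hb, h2, mul_right_comm, pr_aux] at hT
      exact hT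
    · funext i
      fin_cases i
      · exact ha.symm
      · exact h2.symm
      · exact hb.symm
  · rintro ⟨⟨a, b⟩, ⟨h1, h2, h3, h4, h5, h6⟩, rfl⟩
    change 1 ≤ a at h1
    change 1 ≤ b at h2
    change d 0 ∣ a at h3
    change d 2 ∣ b at h4
    change d 1 ∣ a + b at h5
    change ((a * b * (a + b) : ℕ) : ℝ) ≤ T at h6
    refine ⟨⟨?_, ?_, ?_, ?_⟩, ?_, ?_⟩
    · intro i
      fin_cases i
      · show (a : ℤ) ≠ 0
        omega
      · show -((a : ℤ) + b) ≠ 0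
        omega
      · show (b : ℤ) ≠ 0
        omega
    · show (a : ℤ) + -((a : ℤ) + b) + b = 0
      ring
    · intro i
      fin_cases i
      · show (d 0 : ℤ) ∣ a
        exact_mod_cast h3
      · show (d 1 : ℤ) ∣ -((a : ℤ) + b)
        rw [dvd_neg]; exact_mod_cast h5
      · show (d 2 : ℤ) ∣ b
        exact_mod_cast h4
    · show ((((a : ℤ) * -((a : ℤ) + b) * b).natAbs : ℕ) : ℝ) ≤ T
      rw [mul_right_comm, pr_aux]; exact h6
    · show (0 : ℤ) < a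
      omega
    · show (0 : ℤ) < b
      omega

theorem img0 (d : Fin 3 → ℕ) (T : ℝ) :
    {y | y ∈ L3 d T ∧ 0 < y 1 ∧ 0 < y 2} = ph0 '' PQ ![d 1, d 2, d 0] T := by
  ext y
  constructor
  · rintro ⟨⟨hne, hs, hd, hT⟩, h0, h1⟩
    obtain ⟨a, ha⟩ := Int.eq_ofNat_of_zero_le h0.le
    obtain ⟨b, hb⟩ := Int.eq_ofNat_of_zero_le h1.le
    have h2 : y 0 = -((a : ℤ) + b) := by rw [ha, hb] at hs; linarith
    refine ⟨(a, b), ⟨?_, ?_, ?_, ?_, ?_, ?_⟩, ?_⟩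
    · show 1 ≤ a
      rw [ha] at h0; exact_mod_cast h0
    · show 1 ≤ b
      rw [hb] at h1; exact_mod_cast h1
    · show d 1 ∣ a
      have := hd 1; rw [ha] at this; exact_mod_cast this
    · show d 2 ∣ b
      have := hd 2; rw [hb] at this; exact_mod_cast this
    · show d 0 ∣ a + b
      have := hd 0; rw [h2] at this; exact dvd_aux _ _ _ this
    · show ((a * b * (a + b) : ℕ) : ℝ) ≤ T
      rw [pr, ha, hb, h2] at hT
      have e : -((a : ℤ) + b) * a * b = (a : ℤ) * b * -((a : ℤ) + b) := by ring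
      rw [e, pr_aux] at hT
      exact hT
    · funext i
      fin_cases i
      · exact h2.symm
      · exact ha.symm
      · exact hb.symm
  · rintro ⟨⟨a, b⟩, ⟨h1, h2, h3, h4, h5, h6⟩, rfl⟩
    change 1 ≤ a at h1
    change 1 ≤ b at h2
    change d 1 ∣ a at h3
    change d 2 ∣ b at h4
    change d 0 ∣ a + b at h5
    change ((a * b * (a + b) : ℕ) : ℝ) ≤ T at h6
    refine ⟨⟨?_, ?_, ?_, ?_⟩, ?_, ?_⟩
    · intro i
      fin_cases i
      · show -((a : ℤ) + b) ≠ 0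
        omega
      · show (a : ℤ) ≠ 0
        omega
      · show (b : ℤ) ≠ 0
        omega
    · show -((a : ℤ) + b) + a + b = 0
      ring
    · intro i
      fin_cases i
      · show (d 0 : ℤ) ∣ -((a : ℤ) + b)
        rw [dvd_neg]; exact_mod_cast h5
      · show (d 1 : ℤ) ∣ a
        exact_mod_cast h3
      · show (d 2 : ℤ) ∣ b
        exact_mod_cast h4
    · show (((-((a : ℤ) + b) * a * b).natAbs : ℕ) : ℝ) ≤ T
      have e : -((a : ℤ) + b) * a * b = (a : ℤ) * b * -((a : ℤ) + b) := by ring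
      rw [e, pr_aux]; exact h6
    · show (0 : ℤ) < a
      omega
    · show (0 : ℤ) < b
      omega

/-- the half of the triples with two positive entries -/
def LP (d : Fin 3 → ℕ) (T : ℝ) : Set (Fin 3 → ℤ) :=
  ({y | y ∈ L3 d T ∧ 0 < y 0 ∧ 0 < y 1} ∪ {y | y ∈ L3 d T ∧ 0 < y 0 ∧ 0 < y 2}) ∪
    {y | y ∈ L3 d T ∧ 0 < y 1 ∧ 0 < y 2}

theorem neg_mem {d : Fin 3 → ℕ} {T : ℝ} {y : Fin 3 → ℤ} (h : y ∈ L3 d T) : -y ∈ L3 d T := by
  obtain ⟨h1, h2, h3, h4⟩ := h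
  refine ⟨fun i => ?_, ?_, fun i => ?_, ?_⟩
  · rw [Pi.neg_apply]; exact neg_ne_zero.2 (h1 i)
  · simp only [Pi.neg_apply]; linarith
  · rw [Pi.neg_apply, dvd_neg]; exact h3 i
  · have : pr (-y) = pr y := by
      unfold pr
      simp only [Pi.neg_apply]
      have : -y 0 * -y 1 * -y 2 = -(y 0 * y 1 * y 2) := by ring
      rw [this, Int.natAbs_neg]
    rw [this]; exact h4

theorem split (d : Fin 3 → ℕ) (T : ℝ) :
    L3 d T = LP d T ∪ (fun y : Fin 3 → ℤ => -y) '' LP d T := by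
  ext y
  constructor
  · intro hy
    obtain ⟨h1, h2, h3, h4⟩ := id hy
    have a0 := h1 0
    have a1 := h1 1
    have a2 := h1 2
    by_cases hp : (0 < y 0 ∧ 0 < y 1) ∨ (0 < y 0 ∧ 0 < y 2) ∨ (0 < y 1 ∧ 0 < y 2)
    · left
      rcases hp with hp | hp | hp
      · exact Or.inl (Or.inl ⟨hy, hp⟩)
      · exact Or.inl (Or.inr ⟨hy, hp⟩)
      · exact Or.inr ⟨hy, hp⟩
    · right
      refine ⟨-y, ?_, neg_neg y⟩
      have hq : (y 0 < 0 ∧ y 1 < 0) ∨ (y 0 < 0 ∧ y 2 < 0) ∨ (y 1 < 0 ∧ y 2 < 0) := by omega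
      have e0 : (-y) 0 = -(y 0) := rfl
      have e1 : (-y) 1 = -(y 1) := rfl
      have e2 : (-y) 2 = -(y 2) := rfl
      rcases hq with hq | hq | hq
      · exact Or.inl (Or.inl ⟨neg_mem hy, by rw [e0]; omega, by rw [e1]; omega⟩)
      · exact Or.inl (Or.inr ⟨neg_mem hy, by rw [e0]; omega, by rw [e2]; omega⟩)
      · exact Or.inr ⟨neg_mem hy, by rw [e1]; omega, by rw [e2]; omega⟩
  · rintro (((h | h) | h) | ⟨z, ((h | h) | h), rfl⟩)
    · exact h.1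
    · exact h.1
    · exact h.1
    · exact neg_mem h.1
    · exact neg_mem h.1
    · exact neg_mem h.1

theorem LP_pos {d : Fin 3 → ℕ} {T : ℝ} {y : Fin 3 → ℤ} (h : y ∈ LP d T) :
    y ∈ L3 d T ∧ ((0 < y 0 ∧ 0 < y 1) ∨ (0 < y 0 ∧ 0 < y 2) ∨ (0 < y 1 ∧ 0 < y 2)) := by
  rcases h with (h | h) | h
  · exact ⟨h.1, Or.inl h.2⟩
  · exact ⟨h.1, Or.inr (Or.inl h.2)⟩
  · exact ⟨h.1, Or.inr (Or.inr h.2)⟩

theorem pf_LTR (hLPQ : T_LPQ) : T_LTR := by
  obtain ⟨C, hC, H⟩ := hLPQ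
  refine ⟨6 * C, by linarith, fun d T hd hco hT => ?_⟩
  obtain ⟨f2, b2⟩ := H ![d 0, d 1, d 2] T (by intro i; fin_cases i <;> exact hd _)
    (hco 1 2 (by decide)) hT
  obtain ⟨f1, b1⟩ := H ![d 0, d 2, d 1] T (by intro i; fin_cases i <;> exact hd _)
    (hco 2 1 (by decide)) hT
  obtain ⟨f0, b0⟩ := H ![d 1, d 2, d 0] T (by intro i; fin_cases i <;> exact hd _)
    (hco 2 0 (by decide)) hT
  change |((PQ ![d 0, d 1, d 2] T).ncard : ℝ) - AR * T ^ (2 / 3 : ℝ) /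
    ((d 0 : ℝ) * d 1 * d 2)| ≤ C * T ^ (1 / 2 : ℝ) at b2
  change |((PQ ![d 0, d 2, d 1] T).ncard : ℝ) - AR * T ^ (2 / 3 : ℝ) /
    ((d 0 : ℝ) * d 2 * d 1)| ≤ C * T ^ (1 / 2 : ℝ) at b1
  change |((PQ ![d 1, d 2, d 0] T).ncard : ℝ) - AR * T ^ (2 / 3 : ℝ) /
    ((d 1 : ℝ) * d 2 * d 0)| ≤ C * T ^ (1 / 2 : ℝ) at b0
  have F2 : {y | y ∈ L3 d T ∧ 0 < y 0 ∧ 0 < y 1}.Finite := by rw [img2]; exact f2.image _
  have F1 : {y | y ∈ L3 d T ∧ 0 < y 0 ∧ 0 < y 2}.Finite := by rw [img1]; exact f1.image _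
  have F0 : {y | y ∈ L3 d T ∧ 0 < y 1 ∧ 0 < y 2}.Finite := by rw [img0]; exact f0.image _
  have N2 : {y | y ∈ L3 d T ∧ 0 < y 0 ∧ 0 < y 1}.ncard = (PQ ![d 0, d 1, d 2] T).ncard := by
    rw [img2]; exact Set.ncard_image_of_injective _ inj2
  have N1 : {y | y ∈ L3 d T ∧ 0 < y 0 ∧ 0 < y 2}.ncard = (PQ ![d 0, d 2, d 1] T).ncard := by
    rw [img1]; exact Set.ncard_image_of_injective _ inj1
  have N0 : {y | y ∈ L3 d T ∧ 0 < y 1 ∧ 0 < y 2}.ncard = (PQ ![d 1, d 2, d 0] T).ncard := by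
    rw [img0]; exact Set.ncard_image_of_injective _ inj0
  have FP : (LP d T).Finite := (F2.union F1).union F0
  have hsum : ∀ {y : Fin 3 → ℤ}, y ∈ L3 d T → y 0 + y 1 + y 2 = 0 := fun h => h.2.1
  have NP : (LP d T).ncard = (PQ ![d 0, d 1, d 2] T).ncard + (PQ ![d 0, d 2, d 1] T).ncard +
      (PQ ![d 1, d 2, d 0] T).ncard := by
    unfold LP
    rw [Set.ncard_union_eq _ (F2.union F1) F0, Set.ncard_union_eq _ F2 F1, N2, N1, N0]
    · rw [Set.disjoint_left]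
      rintro y ⟨h1, h2, h3⟩ ⟨-, h4, h5⟩
      have := hsum h1; omega
    · rw [Set.disjoint_left]
      rintro y (⟨h1, h2, h3⟩ | ⟨h1, h2, h3⟩) ⟨-, h4, h5⟩
      · have := hsum h1; omega
      · have := hsum h1; omega
  have FN : ((fun y : Fin 3 → ℤ => -y) '' LP d T).Finite := FP.image _
  have NN : ((fun y : Fin 3 → ℤ => -y) '' LP d T).ncard = (LP d T).ncard :=
    Set.ncard_image_of_injective _ neg_injective
  have NL : (L3 d T).ncard = (LP d T).ncard + (LP d T).ncard := by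
    rw [split d T, Set.ncard_union_eq _ FP FN, NN]
    rw [Set.disjoint_left]
    rintro y hy ⟨z, hz, rfl⟩
    obtain ⟨h1, h2⟩ := LP_pos hy
    obtain ⟨h3, h4⟩ := LP_pos hz
    have e0 : (-z) 0 = -(z 0) := rfl
    have e1 : (-z) 1 = -(z 1) := rfl
    have e2 : (-z) 2 = -(z 2) := rfl
    simp only [e0, e1, e2] at h2
    have := hsum h3
    omega
  refine ⟨by rw [split d T]; exact FP.union FN, ?_⟩
  rw [NL, NP]
  have c1 : (d 0 : ℝ) * d 2 * d 1 = (d 0 : ℝ) * d 1 * d 2 := by ring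
  have c0 : (d 1 : ℝ) * d 2 * d 0 = (d 0 : ℝ) * d 1 * d 2 := by ring
  rw [c1] at b1
  rw [c0] at b0
  have e : 6 * AR * T ^ (2 / 3 : ℝ) / ((d 0 : ℝ) * d 1 * d 2) =
      6 * (AR * T ^ (2 / 3 : ℝ) / ((d 0 : ℝ) * d 1 * d 2)) := by ring
  rw [e]
  push_cast
  rw [abs_le] at b0 b1 b2 ⊢
  constructor
  · linarith [b0.1, b1.1, b2.1]
  · linarith [b0.2, b1.2, b2.2]

end Pool.Agent.H56.AS
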